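import Mathlib
import Pool.Agent.Helper9.SalemC

/-!
# The geometric-progression Lagrange spectrum of a Salem number is never closed

Proof idea. Let `α` be a Salem number and `P` its minimal polynomial.
* If `limsup ‖ξ α^n‖` is less than the reciprocal of the sum of absolute values of the coefficients
  of `P`, then the nearest integers to `ξ α^n` eventually satisfy the linear recurrence given by
  `P`, so only countably many `ξ` have this property: the spectrum is countable near `0`.
* By Minkowski there are nonzero integers `ζ` of `ℚ(α)` whose other conjugates are as small as we
  like; then `ζ α^n` is close to its trace and `limsup ‖ζ α^n‖` is positive and small. Together with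
  multiplication by positive integers this shows that the spectrum is dense in `[0, 1/2]`.
-/

namespace Pool.Agent.Results.MP_8d213d_nt.SalemNotClosed

open Pool.Agent.Helper9.Salem

/-- Salem numbers exist, and for every Salem number `α` the set
`{limsup ‖ξ α^n‖ : ξ real}` is not closed. -/
theorem result :
    (∃ α : ℝ, IsSalem α) ∧ ∀ α : ℝ, IsSalem α → ¬ IsClosed (lagSpec α) :=
  ⟨⟨sal, isSalem_sal⟩, fun _ hα => not_isClosed_L_of_isSalem hα⟩

end Pool.Agent.Results.MP_8d213d_nt.SalemNotClosed
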